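import Pool.Agent.helper8.GD.Spec
import Pool.Agent.helper85.BVP.Tau
import Pool.Agent.helper85.TG.VA2

/-!
# Project GD, module E4: the number of bad moduli
-/

set_option autoImplicit false

namespace GD

open Finset ArithmeticFunction
open Pool.Agent.helper74.TG (ee gb typeII_sum)
open Pool.Agent.helper85.BVP (tau tau_nonneg tau_mul_le harm_le log_nat_le sum_divisors_swap)

theorem E4_log (x : ℕ) : 0 ≤ 1 + Real.log x := by
  have := Real.log_natCast_nonneg x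
  linarith

/-- moments of the divisor function with weight `1/n` -/
theorem E4_B (m x : ℕ) : ∑ n ∈ Ioc 0 x, tau n ^ m / n ≤ (1 + Real.log x) ^ (2 ^ m) := by
  induction m generalizing x with
  | zero =>
    simpa using harm_le x
  | succ m ih =>
    have h1 : ∑ n ∈ Ioc 0 x, tau n ^ (m + 1) / n
        = ∑ n ∈ Ioc 0 x, ∑ d ∈ n.divisors, (fun (n : ℕ) (_ : ℕ) => tau n ^ m / (n : ℝ)) n d := by
      refine sum_congr rfl fun n _ => ?_
      simp only [sum_const, nsmul_eq_mul]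
      rw [pow_succ]
      unfold tau
      ring
    rw [h1, sum_divisors_swap]
    calc ∑ d ∈ Ioc 0 x, ∑ k ∈ Ioc 0 (x / d), (fun (n : ℕ) (_ : ℕ) => tau n ^ m / (n : ℝ)) (d * k) d
        ≤ ∑ d ∈ Ioc 0 x, ∑ k ∈ Ioc 0 x, (tau d ^ m / d) * (tau k ^ m / k) := by
          refine sum_le_sum fun d _ => ?_
          refine (sum_le_sum fun k _ => ?_).trans
            (sum_le_sum_of_subset_of_nonneg (Ioc_subset_Ioc_right (Nat.div_le_self x d))
              (fun k _ _ => ?_))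
          · simp only
            rw [div_mul_div_comm, ← mul_pow, ← Nat.cast_mul]
            refine div_le_div_of_nonneg_right ?_ (Nat.cast_nonneg _)
            exact pow_le_pow_left₀ (tau_nonneg _) (tau_mul_le d k) m
          · exact mul_nonneg (div_nonneg (pow_nonneg (tau_nonneg _) _) (Nat.cast_nonneg _))
              (div_nonneg (pow_nonneg (tau_nonneg _) _) (Nat.cast_nonneg _))
      _ = (∑ d ∈ Ioc 0 x, tau d ^ m / d) * ∑ k ∈ Ioc 0 x, tau k ^ m / k := by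
          rw [sum_mul_sum]
      _ ≤ (1 + Real.log x) ^ (2 ^ m) * (1 + Real.log x) ^ (2 ^ m) := by
          refine mul_le_mul (ih x) (ih x) ?_ (pow_nonneg (E4_log x) _)
          exact sum_nonneg fun k _ => div_nonneg (pow_nonneg (tau_nonneg _) _) (Nat.cast_nonneg _)
      _ = (1 + Real.log x) ^ (2 ^ (m + 1)) := by
          rw [← pow_add]
          congr 1
          ring

/-- moments of the divisor function -/
theorem E4_A (m x : ℕ) : ∑ n ∈ Ioc 0 x, tau n ^ m ≤ x * (1 + Real.log x) ^ (2 ^ m - 1) := by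
  induction m generalizing x with
  | zero =>
    simp
  | succ m ih =>
    have h1 : ∑ n ∈ Ioc 0 x, tau n ^ (m + 1)
        = ∑ n ∈ Ioc 0 x, ∑ d ∈ n.divisors, (fun (n : ℕ) (_ : ℕ) => tau n ^ m) n d := by
      refine sum_congr rfl fun n _ => ?_
      simp only [sum_const, nsmul_eq_mul]
      rw [pow_succ]
      unfold tau
      ring
    rw [h1, sum_divisors_swap]
    calc ∑ d ∈ Ioc 0 x, ∑ k ∈ Ioc 0 (x / d), (fun (n : ℕ) (_ : ℕ) => tau n ^ m) (d * k) d
        ≤ ∑ d ∈ Ioc 0 x, tau d ^ m * (x / d * (1 + Real.log x) ^ (2 ^ m - 1)) := by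
          refine sum_le_sum fun d _ => ?_
          have h2 : ∑ k ∈ Ioc 0 (x / d), (fun (n : ℕ) (_ : ℕ) => tau n ^ m) (d * k) d ≤
              tau d ^ m * ∑ k ∈ Ioc 0 (x / d), tau k ^ m := by
            rw [mul_sum]
            refine sum_le_sum fun k _ => ?_
            simp only
            rw [← mul_pow]
            exact pow_le_pow_left₀ (tau_nonneg _) (tau_mul_le d k) m
          refine h2.trans (mul_le_mul_of_nonneg_left ((ih (x / d)).trans ?_)
            (pow_nonneg (tau_nonneg _) _))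
          refine mul_le_mul Nat.cast_div_le ?_ (pow_nonneg (E4_log _) _) (by positivity)
          refine pow_le_pow_left₀ (E4_log _) ?_ _
          have := log_nat_le (Nat.div_le_self x d)
          linarith
      _ = x * (1 + Real.log x) ^ (2 ^ m - 1) * ∑ d ∈ Ioc 0 x, tau d ^ m / d := by
          rw [mul_sum]
          refine sum_congr rfl fun d _ => ?_
          ring
      _ ≤ x * (1 + Real.log x) ^ (2 ^ m - 1) * (1 + Real.log x) ^ (2 ^ m) :=
          mul_le_mul_of_nonneg_left (E4_B m x)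
            (mul_nonneg (Nat.cast_nonneg _) (pow_nonneg (E4_log _) _))
      _ = x * (1 + Real.log x) ^ (2 ^ (m + 1) - 1) := by
          rw [mul_assoc, ← pow_add]
          congr 2
          have : 1 ≤ 2 ^ m := Nat.one_le_two_pow
          rw [pow_succ]
          omega

/-- distance to the nearest integer of a difference -/
theorem E4_tri (x y s t : ℝ) (hx : |x - round x| ≤ s) (hy : |y - round y| ≤ t) :
    |(x - y) - round (x - y)| ≤ s + t := by
  have h1 := round_le (x - y) (round x - round y)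
  have h2 : (x - y) - ((round x - round y : ℤ) : ℝ) = (x - round x) - (y - round y) := by
    push_cast
    ring
  rw [h2] at h1
  refine h1.trans ((abs_sub _ _).trans (add_le_add hx hy))

/-- the good quantity at an integer -/
noncomputable def E4_nn (α : ℝ) (k : ℕ) : ℝ := |(k : ℝ) * α - round ((k : ℝ) * α)|

noncomputable def E4_S (α Z : ℝ) (D r : ℕ) : Finset ℕ :=
  (Icc D (2 * D)).filter fun d : ℕ =>
    |(r : ℝ) * (d : ℝ) ^ 2 * α - round ((r : ℝ) * (d : ℝ) ^ 2 * α)| ≤ 1 / Z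

noncomputable def E4_P (α Z : ℝ) (D r : ℕ) : Finset (ℕ × ℕ) :=
  (E4_S α Z D r ×ˢ E4_S α Z D r).filter fun p => p.2 < p.1

theorem E4_mem (α Z : ℝ) (D Y d : ℕ) (hd : d ∈ Bad α Z D Y) : d ∈ Icc D (2 * D) ∧
    ∃ r ∈ Icc 1 Y, |(r : ℝ) * (d : ℝ) ^ 2 * α - round ((r : ℝ) * (d : ℝ) ^ 2 * α)| ≤ 1 / Z := by
  unfold Bad at hd
  exact (@Finset.mem_filter ℕ _ (fun _ => Classical.propDecidable _) _ _).1 hd

theorem E4_bad (α Z : ℝ) (D Y : ℕ) : #(Bad α Z D Y) ≤ ∑ r ∈ Icc 1 Y, #(E4_S α Z D r) := by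
  refine (card_le_card ?_).trans card_biUnion_le
  intro d hd
  obtain ⟨hd, r, hr, h⟩ := E4_mem α Z D Y d hd
  exact mem_biUnion.2 ⟨r, hr, mem_filter.2 ⟨hd, h⟩⟩

theorem E4_sq (α Z : ℝ) (D r : ℕ) :
    #(E4_S α Z D r) ^ 2 ≤ #(E4_S α Z D r) + 2 * #(E4_P α Z D r) := by
  set S := E4_S α Z D r with hS
  have h1 : #(S ×ˢ S) = #((S ×ˢ S).filter fun p => p.2 < p.1) +
      #((S ×ˢ S).filter fun p => ¬ p.2 < p.1) := (card_filter_add_card_filter_not _).symm
  have h2 : (S ×ˢ S).filter (fun p => ¬ p.2 < p.1) ⊆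
      (S.image fun d => (d, d)) ∪ ((S ×ˢ S).filter fun p => p.2 < p.1).image Prod.swap := by
    intro p hp
    rw [mem_filter, mem_product] at hp
    obtain ⟨⟨h3, h4⟩, h5⟩ := hp
    rcases Nat.lt_or_ge p.1 p.2 with h6 | h6
    · refine mem_union_right _ (mem_image.2 ⟨(p.2, p.1), mem_filter.2 ⟨mem_product.2 ⟨h4, h3⟩, h6⟩, rfl⟩)
    · refine mem_union_left _ (mem_image.2 ⟨p.1, h3, ?_⟩)
      exact Prod.ext rfl (by simp only; omega)
  have h3 : #((S ×ˢ S).filter fun p => ¬ p.2 < p.1) ≤ #S + #((S ×ˢ S).filter fun p => p.2 < p.1) :=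
    (card_le_card h2).trans ((card_union_le _ _).trans (add_le_add card_image_le card_image_le))
  rw [card_product] at h1
  unfold E4_P
  rw [← hS]
  calc #S ^ 2 = #S * #S := sq _
    _ ≤ _ := by omega

/-- the pairs are counted by a divisor sum -/
theorem E4_pairs (α Z : ℝ) (D Y : ℕ) :
    ((∑ r ∈ Icc 1 Y, #(E4_P α Z D r) : ℕ) : ℝ) ≤
      ∑ k ∈ (Ioc 0 (8 * D ^ 2 * Y)).filter (fun k => E4_nn α k ≤ 2 / Z), tau k ^ 2 := by
  set K := (Ioc 0 (8 * D ^ 2 * Y)).filter (fun k => E4_nn α k ≤ 2 / Z) with hK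
  set T : Finset (Σ _ : ℕ, ℕ × ℕ) := (Icc 1 Y).sigma fun r => E4_P α Z D r with hT
  have h1 : (∑ r ∈ Icc 1 Y, #(E4_P α Z D r)) = #T := by
    rw [hT, card_sigma]
  have hmem : ∀ t ∈ T, 1 ≤ t.1 ∧ t.1 ≤ Y ∧ t.2.2 < t.2.1 ∧ D ≤ t.2.2 ∧ t.2.1 ≤ 2 * D ∧
      |(t.1 : ℝ) * (t.2.1 : ℝ) ^ 2 * α - round ((t.1 : ℝ) * (t.2.1 : ℝ) ^ 2 * α)| ≤ 1 / Z ∧
      |(t.1 : ℝ) * (t.2.2 : ℝ) ^ 2 * α - round ((t.1 : ℝ) * (t.2.2 : ℝ) ^ 2 * α)| ≤ 1 / Z := by
    intro t ht
    rw [hT, mem_sigma, mem_Icc] at ht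
    obtain ⟨⟨h3, h4⟩, h5⟩ := ht
    unfold E4_P E4_S at h5
    rw [mem_filter, mem_product, mem_filter, mem_filter, mem_Icc, mem_Icc] at h5
    exact ⟨h3, h4, h5.2, h5.1.2.1.1, h5.1.1.1.2, h5.1.1.2, h5.1.2.2⟩
  have hf : ∀ t ∈ T, t.1 * (t.2.1 - t.2.2) * (t.2.1 + t.2.2) ∈ K := by
    intro t ht
    obtain ⟨h3, h4, h5, h6, h7, h8, h9⟩ := hmem t ht
    rw [hK, mem_filter, mem_Ioc]
    refine ⟨⟨?_, ?_⟩, ?_⟩
    · have : 0 < t.2.1 - t.2.2 := by omega
      have h10 : 0 < t.2.1 + t.2.2 := by omega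
      exact Nat.mul_pos (Nat.mul_pos (by omega) this) h10
    · calc t.1 * (t.2.1 - t.2.2) * (t.2.1 + t.2.2) ≤ Y * (2 * D) * (4 * D) :=
          Nat.mul_le_mul (Nat.mul_le_mul h4 (by omega)) (by omega)
        _ = 8 * D ^ 2 * Y := by ring
    · unfold E4_nn
      have h10 : ((t.1 * (t.2.1 - t.2.2) * (t.2.1 + t.2.2) : ℕ) : ℝ) * α =
          (t.1 : ℝ) * (t.2.1 : ℝ) ^ 2 * α - (t.1 : ℝ) * (t.2.2 : ℝ) ^ 2 * α := by
        rw [Nat.cast_mul, Nat.cast_mul, Nat.cast_sub h5.le, Nat.cast_add]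
        ring
      rw [h10]
      refine (E4_tri _ _ _ _ h8 h9).trans (le_of_eq ?_)
      ring
  rw [h1, card_eq_sum_card_fiberwise hf]
  push_cast
  refine sum_le_sum fun k hk => ?_
  have hk0 : k ≠ 0 := by
    rw [hK, mem_filter, mem_Ioc] at hk
    omega
  have h2 : #{t ∈ T | t.1 * (t.2.1 - t.2.2) * (t.2.1 + t.2.2) = k} ≤ #(k.divisors ×ˢ k.divisors) := by
    refine card_le_card_of_injOn (fun t => (t.1, t.2.1 - t.2.2)) ?_ ?_
    · intro t ht
      rw [mem_coe, mem_filter] at ht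
      rw [mem_coe, mem_product, Nat.mem_divisors, Nat.mem_divisors]
      refine ⟨⟨?_, hk0⟩, ⟨?_, hk0⟩⟩
      · rw [← ht.2, mul_assoc]
        exact dvd_mul_right _ _
      · rw [← ht.2, mul_comm t.1, mul_assoc]
        exact dvd_mul_right _ _
    · intro t ht t' ht' he
      rw [mem_coe, mem_filter] at ht ht'
      obtain ⟨h3, h4, h5, h6, h7, -, -⟩ := hmem t ht.1
      obtain ⟨h3', h4', h5', h6', h7', -, -⟩ := hmem t' ht'.1
      simp only [Prod.mk.injEq] at he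
      obtain ⟨e1, e2⟩ := he
      have e3 : t.2.1 + t.2.2 = t'.2.1 + t'.2.2 := by
        have h8 := ht.2.trans ht'.2.symm
        rw [← e1, ← e2] at h8
        refine Nat.eq_of_mul_eq_mul_left ?_ h8
        exact Nat.mul_pos (by omega) (by omega)
      obtain ⟨r, d₁, d₂⟩ := t
      obtain ⟨r', d₁', d₂'⟩ := t'
      simp only at e1 e2 e3 h5 h5'
      have e4 : d₁ = d₁' := by omega
      have e5 : d₂ = d₂' := by omega
      rw [e1, e4, e5]
  have h3 : (#{t ∈ T | t.1 * (t.2.1 - t.2.2) * (t.2.1 + t.2.2) = k} : ℝ) ≤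
      (#(k.divisors ×ˢ k.divisors) : ℝ) := by exact_mod_cast h2
  refine h3.trans (le_of_eq ?_)
  rw [card_product]
  unfold tau
  push_cast
  ring

/-- number of `k` with `k α` close to an integer -/
theorem E4_count {C₀ : ℝ} (hC₀ : 0 < C₀) (h : ∀ (α : ℝ) (a : ℤ) (q D : ℕ) (M : ℝ), 0 < q → 1 ≤ M →
    IsCoprime a (q : ℤ) → |α - a / q| ≤ 1 / (q : ℝ) ^ 2 →
    ∑ d ∈ Ioc 0 D, gb M (d * α) ≤ C₀ * ((D : ℝ) / q + 1) * (M + q * (1 + Real.log q)))
    (α Z : ℝ) (a : ℤ) (q W X : ℕ) (hq : 0 < q) (hZ : 4 ≤ Z) (hqX : q ≤ X) (hcop : IsCoprime a (q : ℤ))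
    (hα : |α - a / q| ≤ 1 / (q : ℝ) ^ 2) :
    (#((Ioc 0 W).filter (fun k => E4_nn α k ≤ 2 / Z)) : ℝ) ≤
      4 * C₀ * (1 + Real.log X) * ((W : ℝ) / Z + W / q + q / Z + 1) := by
  have hZ0 : 0 < Z := by linarith
  have hq0 : (0 : ℝ) < q := by exact_mod_cast hq
  have h1 := h α a q W (Z / 4) hq (by linarith) hcop hα
  have hgb0 : ∀ β : ℝ, 0 ≤ gb (Z / 4) β := by
    intro β
    unfold gb
    split_ifs
    · positivity
    · positivity
  have h2 : (#((Ioc 0 W).filter (fun k => E4_nn α k ≤ 2 / Z)) : ℝ) * (Z / 4) ≤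
      ∑ d ∈ Ioc 0 W, gb (Z / 4) (d * α) := by
    rw [← nsmul_eq_mul, ← sum_const]
    refine (sum_le_sum fun k hk => ?_).trans
      (sum_le_sum_of_subset_of_nonneg (filter_subset _ _) fun k _ _ => hgb0 _)
    rw [mem_filter] at hk
    have h3 := hk.2
    unfold E4_nn at h3
    unfold gb
    rw [if_pos]
    have h4 : 2 * |(k : ℝ) * α - round ((k : ℝ) * α)| * (Z / 4) ≤ 2 * (2 / Z) * (Z / 4) := by
      gcongr
    refine h4.trans (le_of_eq ?_)
    field_simp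
    norm_num
  have hlq : Real.log q ≤ Real.log X := log_nat_le hqX
  have hlq0 : 0 ≤ Real.log q := Real.log_natCast_nonneg q
  have hW0 : (0 : ℝ) ≤ W := Nat.cast_nonneg W
  have h5 : (#((Ioc 0 W).filter (fun k => E4_nn α k ≤ 2 / Z)) : ℝ) * (Z / 4) ≤
      C₀ * ((W : ℝ) / q + 1) * (Z / 4 + q * (1 + Real.log X)) := by
    refine (h2.trans h1).trans ?_
    gcongr
  have h6 : C₀ * ((W : ℝ) / q + 1) * (Z / 4 + q * (1 + Real.log X)) ≤
      4 * C₀ * (1 + Real.log X) * ((W : ℝ) / Z + W / q + q / Z + 1) * (Z / 4) := by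
    have e1 : 4 * C₀ * (1 + Real.log X) * ((W : ℝ) / Z + W / q + q / Z + 1) * (Z / 4) =
        C₀ * (1 + Real.log X) * (W + W / q * Z + q + Z) := by
      field_simp
    have e2 : C₀ * ((W : ℝ) / q + 1) * (Z / 4 + q * (1 + Real.log X)) =
        C₀ * ((W / q * Z + Z) * (1 / 4) + (W + q) * (1 + Real.log X)) := by
      field_simp
    rw [e1, e2, mul_assoc C₀]
    refine mul_le_mul_of_nonneg_left ?_ hC₀.le
    have h7 : 0 ≤ (W : ℝ) / q * Z + Z := by positivity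
    nlinarith
  exact le_of_mul_le_mul_right (h5.trans h6) (by positivity)

/-- the module E4 -/
theorem E4 : E4_stmt := by
  obtain ⟨C₀, hC₀, hT⟩ := typeII_sum
  set K₁ : ℝ := 1 + 256 * C₀ * 4 ^ 15 with hK₁
  have hK₁1 : 1 ≤ K₁ := by rw [hK₁]; linarith [show 0 ≤ 256 * C₀ * 4 ^ 15 by positivity]
  refine ⟨8 + 2 * K₁, by positivity, ?_⟩
  intro α Z a q D X Y hq hD hY hZ hqX hDX hYX hcop hα
  have hX1 : 1 ≤ X := hq.trans_le hqX
  have hD1 : (1 : ℝ) ≤ D := by exact_mod_cast hD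
  have hY1 : (1 : ℝ) ≤ Y := by exact_mod_cast hY
  have hq1 : (1 : ℝ) ≤ q := by exact_mod_cast hq
  have hZ0 : 0 < Z := by linarith
  have hlX : 0 ≤ Real.log X := Real.log_natCast_nonneg X
  set L : ℝ := 1 + Real.log X with hL
  have hL1 : 1 ≤ L := by rw [hL]; linarith
  set E : ℝ := (D : ℝ) ^ 2 * Y / Z + D ^ 2 * Y / q + q / Z + 1 with hE
  have hE1 : 1 ≤ E := by
    rw [hE]
    have : 0 ≤ (D : ℝ) ^ 2 * Y / Z + D ^ 2 * Y / q + q / Z := by positivity
    linarith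
  have hcardS : ∀ r, (#(E4_S α Z D r) : ℝ) ≤ 2 * D := by
    intro r
    have h1 : #(E4_S α Z D r) ≤ #(Icc D (2 * D)) := card_le_card (filter_subset _ _)
    rw [Nat.card_Icc] at h1
    have h2 : #(E4_S α Z D r) ≤ 2 * D := by omega
    exact_mod_cast h2
  have hL10 : 1 ≤ L ^ 10 := one_le_pow₀ hL1
  rcases lt_or_ge Z 4 with hZ4 | hZ4
  · -- trivial bound
    have h1 : #(Bad α Z D Y) ≤ 2 * D := by
      have : #(Bad α Z D Y) ≤ #(Icc D (2 * D)) := card_le_card fun d hd => (E4_mem α Z D Y d hd).1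
      rw [Nat.card_Icc] at this
      omega
    have h2 : (#(Bad α Z D Y) : ℝ) ^ 2 ≤ 4 * D ^ 2 := by
      have : (#(Bad α Z D Y) : ℝ) ≤ 2 * D := by exact_mod_cast h1
      have h0 : (0 : ℝ) ≤ #(Bad α Z D Y) := Nat.cast_nonneg _
      nlinarith
    have h3 : (D : ℝ) / 2 ≤ √E := by
      apply Real.le_sqrt_of_sq_le
      have h4 : (D : ℝ) ^ 2 * Y / 4 ≤ D ^ 2 * Y / Z := by
        apply div_le_div_of_nonneg_left (by positivity) hZ0 hZ4.le
      have h5 : 0 ≤ (D : ℝ) ^ 2 * Y / q + q / Z := by positivity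
      have h6 : (D : ℝ) ^ 2 ≤ D ^ 2 * Y := by
        have : 0 ≤ (D : ℝ) ^ 2 := by positivity
        nlinarith
      rw [hE]
      nlinarith
    have h7 : (1 : ℝ) ≤ √Y := by
      rw [Real.one_le_sqrt]
      exact hY1
    have h8 : (D : ℝ) * (D / 2) ≤ D * √Y * √E := by
      have : (D : ℝ) * (D / 2) = D * 1 * (D / 2) := by ring
      rw [this]
      gcongr
    have h9 : 0 ≤ (Y : ℝ) * D := by positivity
    calc (#(Bad α Z D Y) : ℝ) ^ 2 ≤ 8 * (D * (D / 2)) := by nlinarith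
      _ ≤ (8 + 2 * K₁) * 1 * 1 * (Y * D + D * √Y * √E) := by nlinarith
      _ ≤ (8 + 2 * K₁) * Y * L ^ 10 * (Y * D + D * √Y * √E) := by gcongr
  · -- main case
    set W : ℕ := 8 * D ^ 2 * Y with hW
    have hWr : (W : ℝ) = 8 * D ^ 2 * Y := by rw [hW]; push_cast; ring
    set Kk := (Ioc 0 W).filter (fun k => E4_nn α k ≤ 2 / Z) with hKk
    set R : ℝ := ∑ k ∈ Kk, tau k ^ 2 with hR
    have hR0 : 0 ≤ R := sum_nonneg fun k _ => sq_nonneg _
    have hcount : (#Kk : ℝ) ≤ 32 * C₀ * L * E := by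
      refine (E4_count hC₀ hT α Z a q W X hq hZ4 hqX hcop hα).trans ?_
      rw [hWr, ← hL]
      have h1 : 8 * (D : ℝ) ^ 2 * Y / Z + 8 * D ^ 2 * Y / q + q / Z + 1 ≤ 8 * E := by
        rw [hE]
        have e1 : 8 * (D : ℝ) ^ 2 * Y / Z = 8 * (D ^ 2 * Y / Z) := by ring
        have e2 : 8 * (D : ℝ) ^ 2 * Y / q = 8 * (D ^ 2 * Y / q) := by ring
        have e3 : 0 ≤ (q : ℝ) / Z := by positivity
        rw [e1, e2]
        linarith
      calc 4 * C₀ * L * (8 * (D : ℝ) ^ 2 * Y / Z + 8 * D ^ 2 * Y / q + q / Z + 1)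
          ≤ 4 * C₀ * L * (8 * E) := by gcongr
        _ = 32 * C₀ * L * E := by ring
    have hlogW : 1 + Real.log W ≤ 4 * L := by
      have h1 : Real.log W = Real.log 8 + 2 * Real.log D + Real.log Y := by
        rw [hWr, Real.log_mul (by positivity) (by positivity), Real.log_mul (by positivity) (by positivity),
          Real.log_pow]
        push_cast
        ring
      have h2 : Real.log D ≤ Real.log X := log_nat_le hDX
      have h3 : Real.log Y ≤ Real.log X := log_nat_le hYX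
      have h4 : Real.log 8 ≤ 3 := by
        have : (8 : ℝ) = 2 ^ 3 := by norm_num
        rw [this, Real.log_pow]
        have := Real.log_two_lt_d9
        push_cast
        linarith
      rw [h1, hL]
      linarith
    have hmom : ∑ k ∈ Kk, tau k ^ 4 ≤ W * (4 * L) ^ 15 := by
      calc ∑ k ∈ Kk, tau k ^ 4 ≤ ∑ k ∈ Ioc 0 W, tau k ^ 4 :=
            sum_le_sum_of_subset_of_nonneg (filter_subset _ _) fun k _ _ => by positivity
        _ ≤ W * (1 + Real.log W) ^ 15 := E4_A 4 W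
        _ ≤ W * (4 * L) ^ 15 := by
          have := E4_log W
          gcongr
    have hR2 : R ^ 2 ≤ (W * (4 * L) ^ 15) * (32 * C₀ * L * E) := by
      have h1 := sum_mul_sq_le_sq_mul_sq Kk (fun k => tau k ^ 2) (fun _ => (1 : ℝ))
      simp only [mul_one, one_pow, sum_const, nsmul_eq_mul] at h1
      have h2 : ∑ k ∈ Kk, (tau k ^ 2) ^ 2 = ∑ k ∈ Kk, tau k ^ 4 :=
        sum_congr rfl fun k _ => by ring
      rw [h2] at h1
      refine h1.trans ?_
      gcongr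
    have hR3 : R ≤ K₁ * L ^ 8 * (D * √Y * √E) := by
      refine abs_le_of_sq_le_sq' ?_ (by positivity) |>.2
      have e1 : (K₁ * L ^ 8 * (D * √Y * √E)) ^ 2 = K₁ ^ 2 * L ^ 16 * (D ^ 2 * Y * E) := by
        have e2 : √(Y : ℝ) ^ 2 = Y := Real.sq_sqrt (by positivity)
        have e3 : √E ^ 2 = E := Real.sq_sqrt (by positivity)
        calc (K₁ * L ^ 8 * (D * √Y * √E)) ^ 2 = K₁ ^ 2 * L ^ 16 * (D ^ 2 * √(Y : ℝ) ^ 2 * √E ^ 2) := by ring
          _ = _ := by rw [e2, e3]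
      rw [e1]
      refine hR2.trans ?_
      rw [hWr]
      have e4 : 8 * (D : ℝ) ^ 2 * Y * (4 * L) ^ 15 * (32 * C₀ * L * E) =
          (256 * C₀ * 4 ^ 15) * L ^ 16 * (D ^ 2 * Y * E) := by ring
      rw [e4]
      have e5 : 256 * C₀ * 4 ^ 15 ≤ K₁ ^ 2 := by
        have : 256 * C₀ * 4 ^ 15 ≤ K₁ := by rw [hK₁]; linarith
        nlinarith
      gcongr
    have hcauchy : (#(Bad α Z D Y) : ℝ) ^ 2 ≤ Y * (2 * D * Y + 2 * R) := by
      have h1 : (#(Bad α Z D Y) : ℝ) ≤ ∑ r ∈ Icc 1 Y, (#(E4_S α Z D r) : ℝ) := by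
        exact_mod_cast E4_bad α Z D Y
      have h2 := sq_sum_le_card_mul_sum_sq (s := Icc 1 Y) (f := fun r => (#(E4_S α Z D r) : ℝ))
      rw [Nat.card_Icc, Nat.add_sub_cancel] at h2
      have h3 : ∑ r ∈ Icc 1 Y, (#(E4_S α Z D r) : ℝ) ^ 2 ≤ 2 * D * Y + 2 * R := by
        calc ∑ r ∈ Icc 1 Y, (#(E4_S α Z D r) : ℝ) ^ 2
            ≤ ∑ r ∈ Icc 1 Y, ((#(E4_S α Z D r) : ℝ) + 2 * #(E4_P α Z D r)) :=
              sum_le_sum fun r _ => by exact_mod_cast E4_sq α Z D r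
          _ = ∑ r ∈ Icc 1 Y, (#(E4_S α Z D r) : ℝ) + 2 * ((∑ r ∈ Icc 1 Y, #(E4_P α Z D r) : ℕ) : ℝ) := by
              rw [sum_add_distrib, ← mul_sum]
              push_cast
              rfl
          _ ≤ ∑ r ∈ Icc 1 Y, (2 * D : ℝ) + 2 * R := by
              gcongr with r hr
              · exact hcardS r
              · exact E4_pairs α Z D Y
          _ = 2 * D * Y + 2 * R := by
              rw [sum_const, Nat.card_Icc, Nat.add_sub_cancel, nsmul_eq_mul]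
              ring
      calc (#(Bad α Z D Y) : ℝ) ^ 2 ≤ (∑ r ∈ Icc 1 Y, (#(E4_S α Z D r) : ℝ)) ^ 2 := by gcongr
        _ ≤ Y * ∑ r ∈ Icc 1 Y, (#(E4_S α Z D r) : ℝ) ^ 2 := h2
        _ ≤ _ := by gcongr
    have hL8 : L ^ 8 ≤ L ^ 10 := pow_le_pow_right₀ hL1 (by norm_num)
    have hP : 0 ≤ D * √(Y : ℝ) * √E := by positivity
    have hYD : 0 ≤ (Y : ℝ) * D := by positivity
    calc (#(Bad α Z D Y) : ℝ) ^ 2 ≤ Y * (2 * D * Y + 2 * R) := hcauchy
      _ ≤ Y * (2 * D * Y + 2 * (K₁ * L ^ 8 * (D * √Y * √E))) := by gcongr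
      _ ≤ Y * ((8 + 2 * K₁) * L ^ 10 * (Y * D) + (8 + 2 * K₁) * L ^ 10 * (D * √Y * √E)) := by
          have h1 : 2 * (D : ℝ) * Y ≤ (8 + 2 * K₁) * L ^ 10 * (Y * D) := by
            have : 2 ≤ (8 + 2 * K₁) * L ^ 10 := by nlinarith
            nlinarith
          have h2 : 2 * (K₁ * L ^ 8 * (D * √Y * √E)) ≤ (8 + 2 * K₁) * L ^ 10 * (D * √Y * √E) := by
            have : 2 * (K₁ * L ^ 8) ≤ (8 + 2 * K₁) * L ^ 10 := by nlinarith
            calc 2 * (K₁ * L ^ 8 * (D * √Y * √E)) = 2 * (K₁ * L ^ 8) * (D * √Y * √E) := by ring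
              _ ≤ _ := mul_le_mul_of_nonneg_right this hP
          gcongr
      _ = (8 + 2 * K₁) * Y * L ^ 10 * (Y * D + D * √Y * √E) := by ring

end GD
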